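import Pool.Agent.MP_c1891a_nt.G36.Abs2

/-
Row Abs: few points are very near the zero set and far from the cosets in it.
-/

namespace Pool.Agent.MP_c1891a_nt.G43

open Finset Filter Complex

/-- one term of an exponential sum -/
noncomputable def absE {ι : Type} {d : ℕ} (c : ι → ℂ) (m : ι → Fin d → ℤ) (θ : Fin d → ℂ) (i : ι) :
    ℂ := c i * exp (2 * Real.pi * I * ∑ l, (m i l : ℂ) * θ l)

lemma abs_sum {N : ℕ → ℕ} {K : Type} [NontriviallyNormedField K] [IsUltrametricDist K]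
    {M : Subring (ℕ → ℂ)} {cl : M →+* K} (hN : Tendsto N atTop atTop) (hU : UF N M cl)
    (hexp : ∀ x y : M, ‖cl x‖ < 1 → (∀ n, y.1 n = exp (x.1 n)) → cl y = ex K (cl x))
    {ι : Type} {d : ℕ} (c : ℕ → ι → ℂ) (m : ι → Fin d → ℤ) (α : Fin d → M) (R' rr : M)
    (hrr : ∀ n, rr.1 n = 2 * Real.pi * I * R'.1 n) (hr : ‖cl rr‖ < 1) (I' : Finset ι) (cs : ι → M)
    (hcs : ∀ i ∈ I', ∀ n, (cs i).1 n = absE (c n) m (fun l => (α l).1 n) i) (η : Fin d → M)
    (hη : ∀ l, ‖cl (η l)‖ ≤ 1) :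
    ∃ w : M, cl w = ∑ i ∈ I', cl (cs i) * ex K (cl rr * ∑ l, (m i l : K) * cl (η l)) ∧
      ∀ n, w.1 n = ∑ i ∈ I', absE (c n) m (fun l => (α l).1 n + R'.1 n * (η l).1 n) i := by
  let ev : ℕ → M →+* ℂ := fun n => (Pi.evalRingHom (fun _ => ℂ) n).comp M.subtype
  have hev : ∀ n (x : M), ev n x = x.1 n := fun _ _ => rfl
  let x : ι → M := fun i => rr * ∑ l, (m i l : M) * η l
  have hx : ∀ i, cl (x i) = cl rr * ∑ l, (m i l : K) * cl (η l) := fun i => by
    simp only [x, map_mul, map_sum, map_intCast]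
  have hx' : ∀ i n, (x i).1 n = 2 * Real.pi * I * R'.1 n * ∑ l, (m i l : ℂ) * (η l).1 n :=
    fun i n => by
      rw [← hev, ← hrr, map_mul, map_sum]
      simp only [map_mul, map_intCast]
      rfl
  have hx1 : ∀ i, ‖cl (x i)‖ < 1 := fun i => by
    rw [hx, norm_mul]
    refine lt_of_le_of_lt (mul_le_of_le_one_right (norm_nonneg _) ?_) hr
    refine IsUltrametricDist.norm_sum_le_of_forall_le_of_nonneg zero_le_one fun l _ => ?_
    rw [norm_mul]
    exact mul_le_one₀ (IsUltrametricDist.norm_intCast_le_one K _) (norm_nonneg _) (hη l)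
  have he : ∀ i, (fun n => exp ((x i).1 n)) ∈ M := fun i => abs_mem hU (by
    filter_upwards [abs_lt_one hN hU _ (hx1 i), abs_ev hN (Real.exp 1)] with n h1 h2
    exact (norm_exp_le_exp_norm _).trans ((Real.exp_le_exp.2 h1.le).trans h2))
  refine ⟨∑ i ∈ I', cs i * ⟨_, he i⟩, ?_, fun n => ?_⟩
  · rw [map_sum]
    refine Finset.sum_congr rfl fun i _ => ?_
    rw [map_mul, hexp (x i) ⟨_, he i⟩ (hx1 i) fun _ => rfl, hx]
  · rw [← hev, map_sum]
    refine Finset.sum_congr rfl fun i hi => ?_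
    rw [map_mul, hev, hev, hcs i hi, absE, absE, mul_assoc, ← exp_add, hx']
    congr 2
    simp only [mul_add, Finset.sum_add_distrib, Finset.mul_sum]
    congr 1
    exact Finset.sum_congr rfl fun l _ => by ring

open Classical in
lemma abs_core (h1 : SUF) (h2 : SUF2) (h3 : SStab) (h4 : SLoc) (h5 : SAux) {ι J : Type} {d : ℕ}
    (I' : Finset ι) (m : ι → Fin d → ℤ) (κ : ι → J) (c : ℕ → ι → ℂ) (N : ℕ → ℕ)
    (S : ℕ → Finset (Fin d → ℂ)) (A' : ℕ) (hN : Tendsto N atTop atTop) (hN0 : ∀ n, 0 < N n)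
    (hL : Large N S) (hc : ∀ n, ∀ i ∈ I', ‖c n i‖ ≤ 1)
    (hint : ∀ n, ∀ θ ∈ S n, ∀ l, ∃ a : ℕ, a < N n ∧ θ l = a / N n)
    (hs : ∀ n, ∀ θ ∈ S n, ∀ j,
      ‖∑ i ∈ I' with κ i = j, absE (c n) m θ i‖ * ((N n : ℝ) + 1) ^ n ≤ 1)
    (hb : ∀ u : Fin d → ℤ, u ≠ 0 → ∃ Q : Finset (J × ℤ), ∀ n, ∀ θ ∈ S n,
      1 ≤ (∑ q ∈ Q, ‖∑ i ∈ I' with κ i = q.1 ∧ ∑ l, u l * m i l = q.2, absE (c n) m θ i‖) *
        ((N n : ℝ) + 1) ^ A') : False := by
  obtain ⟨K, _, _, M, cl, hU⟩ := h1 N hN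
  obtain ⟨_, _, hUK, hexp⟩ := h2 N K M cl hN hU
  have hN1 : ∀ n, (1 : ℝ) ≤ N n := fun n => by exact_mod_cast hN0 n
  have hNp : ∀ n, (0 : ℝ) < N n := fun n => by exact_mod_cast hN0 n
  have hreal : ∀ n, ∀ θ ∈ S n, ∀ l, ∃ x : ℝ, 0 ≤ x ∧ x ≤ 1 ∧ θ l = x := by
    intro n θ hθ l
    obtain ⟨a, ha, e⟩ := hint n θ hθ l
    refine ⟨a / N n, by positivity, (div_le_one (hNp n)).2 (by exact_mod_cast ha.le), ?_⟩
    rw [e]; push_cast; rfl
  obtain ⟨⟨S1, hS1, ⟨e1, he1, hL1⟩, hst⟩, -, -⟩ := h3 N K M cl d S hN hU hL (by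
    intro n θ hθ l
    obtain ⟨x, h0, h1, e⟩ := hreal n θ hθ l
    rw [e, norm_real, Real.norm_of_nonneg h0]
    exact h1.trans (hN1 n))
  obtain ⟨g, hg, hg1, hgd⟩ : ∃ g : ℝ, 0 < g ∧ g ≤ 1 ∧ 2 * g * d ≤ e1 / 4 := by
    refine ⟨min 1 (e1 / (8 * d + 8)), by positivity, min_le_left _ _, ?_⟩
    have : min 1 (e1 / (8 * d + 8)) * (8 * d + 8) ≤ e1 :=
      (le_div_iff₀ (by positivity)).1 (min_le_right _ _)
    have h0 : 0 < min 1 (e1 / (8 * d + 8)) := by positivity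
    nlinarith
  choose S2 hS2 hcard hbox using fun n => abs_box (S1 n)
    (Real.one_le_rpow (hN1 n) (by positivity : 0 ≤ 2 * g)) fun θ hθ => hreal n θ (hS1 n hθ)
  have hL2 : Large N S2 := by
    refine ⟨e1 / 2, by positivity, ?_⟩
    filter_upwards [hL1, abs_evp hN (by positivity : 0 < e1 / 4) (2 ^ d)] with n a1 a2
    have a3 : (2 * (N n : ℝ) ^ (2 * g)) ^ d ≤ (N n : ℝ) ^ (e1 / 2) := by
      rw [mul_pow, ← Real.rpow_mul_natCast (hNp n).le, show e1 / 2 = e1 / 4 + e1 / 4 by ring,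
        Real.rpow_add (hNp n)]
      exact mul_le_mul a2 (Real.rpow_le_rpow_of_exponent_le (hN1 n) hgd) (by positivity)
        (by positivity)
    have a4 : (N n : ℝ) ^ (e1 / 2) * (N n : ℝ) ^ (e1 / 2) ≤ (N n : ℝ) ^ (e1 / 2) * (S2 n).card := by
      rw [← Real.rpow_add (hNp n), add_halves]
      exact (a1.trans (hcard n)).trans (mul_le_mul_of_nonneg_right a3 (Nat.cast_nonneg _))
    exact le_of_mul_le_mul_left a4 (Real.rpow_pos_of_pos (hNp n) _)
  have : ∀ n, ∃ a : Fin d → ℂ, (∀ l, ∃ x : ℝ, |x| ≤ 1 ∧ a l = x) ∧ ∀ θ ∈ S2 n, a ∈ S2 n := by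
    intro n
    rcases (S2 n).eq_empty_or_nonempty with h | ⟨a, ha⟩
    · exact ⟨0, fun l => ⟨0, by simp, by simp⟩, by simp [h]⟩
    · refine ⟨a, fun l => ?_, fun _ _ => ha⟩
      obtain ⟨x, h0, h1, e⟩ := hreal n a (hS1 n (hS2 n ha)) l
      exact ⟨x, by rwa [abs_of_nonneg h0], e⟩
  choose a ha ha' using this
  have pw : ∀ t : ℝ, t ≤ 1 → ∃ R : M, ∀ n, R.1 n = (((N n : ℝ) ^ t : ℝ) : ℂ) := fun t ht =>
    ⟨⟨fun n => (((N n : ℝ) ^ t : ℝ) : ℂ), abs_mem hU (Eventually.of_forall fun n => by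
      rw [norm_real, Real.norm_of_nonneg (by positivity)]
      exact (Real.rpow_le_rpow_of_exponent_le (hN1 n) ht).trans_eq (Real.rpow_one _))⟩,
      fun _ => rfl⟩
  obtain ⟨R, hR⟩ := pw g hg1
  obtain ⟨R', hR'⟩ := pw (-g) (by linarith)
  obtain ⟨ρ, hρ⟩ := pw (1 - g) (by linarith)
  have hRR : ∀ n, R.1 n * R'.1 n = 1 := fun n => by
    rw [hR, hR', ← ofReal_mul, ← Real.rpow_add (hNp n)]; simp
  have hRρ : ∀ n, R.1 n * ρ.1 n = N n := fun n => by
    rw [hR, hρ, ← ofReal_mul, ← Real.rpow_add (hNp n)]; simp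
  let α : Fin d → M := fun l => ⟨fun n => a n l, abs_mem hU (Eventually.of_forall fun n => by
    obtain ⟨x, h0, e⟩ := ha n l
    rw [e, norm_real]
    exact h0.trans (hN1 n))⟩
  have hsm : ∀ n, ∀ θ ∈ absAff α R S2 n, ∀ l, ‖θ l‖ ≤ (N n : ℝ) ^ (-g) := by
    intro n θ hθ l
    obtain ⟨θ, h, rfl⟩ := Finset.mem_image.1 hθ
    rw [norm_mul, hR, norm_real, Real.norm_of_nonneg (by positivity)]
    refine (mul_le_mul_of_nonneg_right (hbox n θ h _ (ha' n θ h) l) (by positivity)).trans_eq ?_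
    rw [← Real.rpow_neg (hNp n).le, ← Real.rpow_add (hNp n)]
    congr 1
    ring
  have hL3 : Large N (absAff α R S2) := by
    obtain ⟨ε, hε, h⟩ := hL2
    exact ⟨ε, hε, h.mono fun n hn => by rwa [abs_card_aff α hRR]⟩
  refine abs_geo h3 h5 hN hU (absAff α R S2) hL3 (abs_stab_aff α hRR (abs_stab_mono hS2 hst)) hg
    hN0 hsm ρ (fun n h => ?_) (fun n => ?_) (fun n θ hθ l => ?_) fun k σ hp hk hσ => ?_
  · have := hRρ n
    rw [h, mul_zero] at this
    exact (hN0 n).ne (by exact_mod_cast this)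
  · rw [hρ, norm_real, Real.norm_of_nonneg (by positivity)]
    exact (Real.rpow_le_rpow_of_exponent_le (hN1 n) (by linarith)).trans_eq (Real.rpow_one _)
  · obtain ⟨θ, h, rfl⟩ := Finset.mem_image.1 hθ
    obtain ⟨z, -, hz⟩ := hint n θ (hS1 n (hS2 n h)) l
    obtain ⟨z', -, hz'⟩ := hint n _ (hS1 n (hS2 n (ha' n θ h))) l
    refine ⟨z - z', ?_⟩
    have h0 : (N n : ℂ) ≠ 0 := by exact_mod_cast (hN0 n).ne'
    change (θ l - a n l) * R.1 n * ρ.1 n = _
    rw [mul_assoc, hRρ, hz, hz']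
    push_cast
    field_simp
  have hnr : ∀ n, ‖2 * Real.pi * I * R'.1 n‖ = 2 * Real.pi * (N n : ℝ) ^ (-g) := fun n => by
    rw [hR']
    simp [abs_of_pos Real.pi_pos, abs_of_pos (Real.rpow_pos_of_pos (hNp n) (-g))]
  have hnr' : ∀ᶠ n in hyperfilter ℕ, ‖2 * Real.pi * I * R'.1 n‖ ≤ (N n : ℝ) ^ (-g / 2) := by
    filter_upwards [abs_evp hN (half_pos hg) (2 * Real.pi)] with n h
    rw [hnr, show -g / 2 = g / 2 + -g by ring, Real.rpow_add (hNp n)]
    exact mul_le_mul_of_nonneg_right h (by positivity)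
  let rr : M := ⟨fun n => 2 * Real.pi * I * R'.1 n, abs_mem hU (hnr'.mono fun n hn => hn.trans
    ((Real.rpow_le_rpow_of_exponent_le (hN1 n) (by linarith)).trans_eq (Real.rpow_one _)))⟩
  have hr : ‖cl rr‖ < 1 := (hU.le rr _ hnr').trans_lt (Real.exp_lt_one_iff.2 (by linarith))
  have hr0 : cl rr ≠ 0 := abs_ne_zero hN hU rr (-g) (Eventually.of_forall fun n => by
    change _ ≤ ‖2 * Real.pi * I * R'.1 n‖
    rw [hnr]
    exact le_mul_of_one_le_left (by positivity) (by linarith [Real.pi_gt_three]))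
  have : ∀ i, ∃ x : M, i ∈ I' → ∀ n, x.1 n = absE (c n) m (fun l => (α l).1 n) i := by
    intro i
    by_cases hi : i ∈ I'
    · refine ⟨⟨fun n => absE (c n) m (fun l => (α l).1 n) i,
        abs_mem hU (Eventually.of_forall fun n => ?_)⟩, fun _ _ => rfl⟩
      choose x _ hx using ha n
      have e : 2 * Real.pi * I * ∑ l, (m i l : ℂ) * (α l).1 n =
          ((2 * Real.pi * ∑ l, (m i l : ℝ) * x l : ℝ) : ℂ) * I := by
        have : ∀ l, (α l).1 n = x l := hx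
        simp only [this]
        push_cast
        ring
      rw [absE, e, norm_mul, norm_exp_ofReal_mul_I, mul_one]
      exact (hc n i hi).trans (hN1 n)
    · exact ⟨0, fun h => absurd h hi⟩
  choose cs hcs using this
  have hη : ∀ η : Fin d → M, (∀ᶠ n in hyperfilter ℕ, (fun l => (η l).1 n) ∈ absAff α R S2 n) →
      (∀ l, ‖cl (η l)‖ ≤ 1) ∧
        ∀ᶠ n in hyperfilter ℕ, (fun l => (α l).1 n + R'.1 n * (η l).1 n) ∈ S n := fun η h =>
    ⟨fun l => (hU.le _ _ (h.mono fun n hn => hsm n _ hn l)).trans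
      (Real.exp_le_one_iff.2 (by linarith)),
      h.mono fun n hn => hS1 n (hS2 n ((abs_mem_aff α hRR S2 n _).1 hn))⟩
  obtain ⟨η₀, η₁, h0⟩ := abs_two_pts hN hU hL3 fun n θ hθ l => (hsm n θ hθ l).trans
    ((Real.rpow_le_rpow_of_exponent_le (hN1 n) (by linarith)).trans_eq (Real.rpow_one _))
  have h0' := h0.mono fun n hn => hn.1
  refine h4 K d k _ σ ι J I' (fun i => cl (cs i)) m κ (cl rr) _ (fun l => cl (η₀ l)) hUK hp hk hσ
    hr0 hr ?_ ⟨η₀, h0', fun _ => rfl⟩ fun u hu => ?_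
  · rintro y hy
    refine ⟨?_, fun p hp => hp y hy, fun j => ?_⟩
    · obtain ⟨η, a1, a2⟩ := hy
      exact fun l => a2 l ▸ (hη η a1).1 l
    · obtain ⟨η, a1, a2⟩ := hy
      obtain ⟨w, hw, hw'⟩ := abs_sum hN hU hexp c m α R' rr (fun _ => rfl) hr
        (I'.filter fun i => κ i = j) cs (fun i hi => hcs i (Finset.mem_filter.1 hi).1) η
        (hη η a1).1
      simp only [← a2]
      rw [← hw]
      refine abs_zero hU w fun t => ?_
      filter_upwards [(hη η a1).2, Nat.hyperfilter_le_atTop (eventually_ge_atTop ⌈-t⌉₊)]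
        with n b1 b2
      have b3 := hs n _ b1 j
      rw [← hw', ← le_div_iff₀ (by positivity), one_div] at b3
      refine b3.trans ?_
      rw [← neg_neg t, Real.rpow_neg (hNp n).le]
      refine inv_anti₀ (Real.rpow_pos_of_pos (hNp n) _) ?_
      refine (Real.rpow_le_rpow_of_exponent_le (hN1 n)
        ((Nat.le_ceil _).trans (Nat.cast_le.2 b2))).trans ?_
      rw [Real.rpow_natCast]
      exact pow_le_pow_left₀ (hNp n).le (by linarith) n
  · by_contra hz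
    push Not at hz
    obtain ⟨Q, hQ⟩ := hb u hu
    have hv : (fun n => (N n : ℂ) + 1) ∈ M := (hU.mem _).2 ⟨2, by
      filter_upwards [abs_ev hN 2] with n hn
      refine (norm_add_le _ _).trans ?_
      rw [norm_natCast, norm_one]
      nlinarith⟩
    have key : ∀ q ∈ Q, ∀ᶠ n in hyperfilter ℕ,
        ‖∑ i ∈ I' with κ i = q.1 ∧ ∑ l, u l * m i l = q.2,
          absE (c n) m (fun l => (α l).1 n + R'.1 n * (η₀ l).1 n) i‖ * ((N n : ℝ) + 1) ^ A' ≤
          (N n : ℝ)⁻¹ := by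
      intro q _
      obtain ⟨w, hw, hw'⟩ := abs_sum hN hU hexp c m α R' rr (fun _ => rfl) hr
        (I'.filter fun i => κ i = q.1 ∧ ∑ l, u l * m i l = q.2) cs
        (fun i hi => hcs i (Finset.mem_filter.1 hi).1) η₀ (hη η₀ h0').1
      refine (abs_of_zero hU (w * ⟨_, hv⟩ ^ A') (by rw [map_mul, hw, hz, zero_mul]) (-1)).mono
        fun n hn => ?_
      rw [← hw', ← Real.rpow_neg_one]
      refine le_trans (le_of_eq ?_) hn
      change _ = ‖w.1 n * ((N n : ℂ) + 1) ^ A'‖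
      rw [norm_mul, norm_pow, ← Nat.cast_succ, ← Nat.cast_succ, norm_natCast]
    obtain ⟨n, b1, b2, b3⟩ := (((eventually_all_finset Q).2 key).and
      ((hη η₀ h0').2.and (abs_ev hN (Q.card + 1)))).exists
    have b4 := hQ n _ b2
    rw [Finset.sum_mul] at b4
    have b5 := b4.trans (Finset.sum_le_card_nsmul _ _ _ b1)
    rw [nsmul_eq_mul, ← div_eq_mul_inv, le_div_iff₀ (hNp n)] at b5
    linarith

lemma abs_coord {Λ : Type} [AddCommGroup Λ] {d : ℕ} (b : Module.Basis (Fin d) ℤ Λ) {N : ℕ}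
    (hN : 0 < N) (χ : AddChar Λ ℂ) (h : χ ^ N = 1) : ∃ a : Fin d → ℕ, (∀ l, a l < N) ∧
      ∀ μ, χ μ = exp (2 * Real.pi * I * ∑ l, (b.repr μ l : ℂ) * ((a l : ℂ) / N)) := by
  have : NeZero N := ⟨hN.ne'⟩
  have h1 : ∀ l, χ (b l) ^ N = 1 := fun l => by
    rw [← AddChar.pow_apply, h, AddChar.one_apply]
  choose a ha ha' using fun l => (isPrimitiveRoot_exp N hN.ne').eq_pow_of_pow_eq_one (h1 l)
  refine ⟨a, ha, fun μ => ?_⟩
  have hμ : μ ∈ Submodule.span ℤ (Set.range b) := b.mem_span μ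
  induction hμ using Submodule.span_induction with
  | mem x hx =>
    obtain ⟨l, rfl⟩ := hx
    rw [← ha', ← exp_nat_mul, Finset.sum_eq_single l]
    · congr 1
      simp only [Module.Basis.repr_self, Finsupp.single_eq_same, Int.cast_one]
      ring
    · intro l' _ hl
      simp [Finsupp.single_eq_of_ne hl]
    · simp
  | zero => simp
  | add x y _ _ hx hy =>
    rw [AddChar.map_add_eq_mul, hx, hy, ← exp_add]
    simp only [map_add, Finsupp.add_apply, Int.cast_add, add_mul, Finset.sum_add_distrib, mul_add]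
  | smul z x _ hx =>
    rw [AddChar.map_zsmul_eq_zpow, hx, ← exp_int_mul]
    congr 1
    simp only [map_smul, Finsupp.smul_apply, smul_eq_mul, Int.cast_mul, Finset.mul_sum]
    exact Finset.sum_congr rfl fun l _ => by ring

theorem sAbs (h1 : SUF) (h2 : SUF2) (h3 : SStab) (h4 : SLoc) (h5 : SAux) : SAbs := by
  classical
  intro Λ _ _ _ S ε A' hε
  by_contra hc
  push Not at hc
  choose c N X hc hN0 hX hcard using fun n => hc n n
  let b := Module.finBasis ℤ Λ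
  have : ∀ n χ, ∃ a : Fin (Module.finrank ℤ Λ) → ℕ, χ ∈ X n → (∀ l, a l < N n) ∧
      ∀ μ, χ μ = exp (2 * Real.pi * I * ∑ l, (b.repr μ l : ℂ) * ((a l : ℂ) / N n)) := by
    intro n χ
    by_cases h : χ ∈ X n
    · obtain ⟨a, ha⟩ := abs_coord b (hN0 n) χ (hX n χ h).1
      exact ⟨a, fun _ => ha⟩
    · exact ⟨0, fun h' => absurd h' h⟩
  choose a ha using this
  have hinj : ∀ n, Set.InjOn (fun χ l => (a n χ l : ℂ) / N n) (X n) := by
    intro n χ h χ' h' e
    ext μ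
    rw [(ha n χ h).2, (ha n χ' h').2]
    have : ∀ l, (a n χ l : ℂ) / N n = (a n χ' l : ℂ) / N n := congrFun e
    simp only [this]
  have hN1 : ∀ n, (1 : ℝ) ≤ (N n : ℝ) ^ ε := fun n =>
    Real.one_le_rpow (by exact_mod_cast hN0 n) hε.le
  have hlt : ∀ n, n < N n ^ Module.finrank ℤ Λ := by
    intro n
    have e1 : (X n).card ≤ (Fintype.piFinset fun _ : Fin (Module.finrank ℤ Λ) =>
        Finset.range (N n)).card := by
      refine Finset.card_le_card_of_injOn (a n) (fun χ h => ?_) fun χ h χ' h' e => ?_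
      · exact Fintype.mem_piFinset.2 fun l => Finset.mem_range.2 ((ha n χ h).1 l)
      · exact hinj n h h' (by simp only [e])
    have e2 : (n : ℝ) < (X n).card :=
      (le_mul_of_one_le_right (Nat.cast_nonneg _) (hN1 n)).trans_lt (hcard n)
    refine lt_of_lt_of_le (by exact_mod_cast e2) (e1.trans_eq ?_)
    simp
  have hN : Tendsto N atTop atTop := by
    refine tendsto_atTop.2 fun B => (eventually_ge_atTop (B ^ Module.finrank ℤ Λ)).mono
      fun n hn => ?_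
    exact (lt_of_pow_lt_pow_left₀ _ (Nat.zero_le _) (hn.trans_lt (hlt n))).le
  have hcs : ∀ n, ∀ χ ∈ X n, ∀ i, absE (c n) (fun i l => b.repr (S.m i) l)
      (fun l => (a n χ l : ℂ) / N n) i = algebraMap ℂ ℂ (c n i) * χ (S.m i) := by
    intro n χ h i
    rw [(ha n χ h).2]
    rfl
  refine abs_core h1 h2 h3 h4 h5 S.I (fun i l => b.repr (S.m i) l) S.κ c N
    (fun n => (X n).image fun χ l => (a n χ l : ℂ) / N n) A' hN hN0 ⟨ε, hε, ?_⟩ hc ?_ ?_ ?_
  · filter_upwards [Nat.hyperfilter_le_atTop (eventually_ge_atTop 1)] with n hn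
    rw [Finset.card_image_of_injOn (hinj n)]
    refine le_trans (le_mul_of_one_le_left (by positivity) ?_) (hcard n).le
    exact_mod_cast hn
  · intro n θ hθ l
    obtain ⟨χ, h, rfl⟩ := Finset.mem_image.1 hθ
    exact ⟨_, (ha n χ h).1 l, rfl⟩
  · intro n θ hθ j
    obtain ⟨χ, h, rfl⟩ := Finset.mem_image.1 hθ
    refine le_trans (mul_le_mul_of_nonneg_right ?_ (by positivity)) (hX n χ h).2.1
    simp only [hcs n χ h]
    by_cases hj : j ∈ S.I.image S.κ
    · exact Finset.single_le_sum (f := fun j => ‖(S.wc (c n)).cs χ j‖)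
        (fun _ _ => norm_nonneg _) hj
    · rw [Finset.filter_eq_empty_iff.2 fun i hi e => hj (Finset.mem_image.2 ⟨i, hi, e⟩),
        Finset.sum_empty, norm_zero]
      exact Finset.sum_nonneg fun _ _ => norm_nonneg _
  · intro u hu
    have hu' : b.constr ℤ u ≠ 0 := fun h => hu (funext fun l => by
      rw [← b.constr_basis ℤ u l, h]; rfl)
    refine ⟨@Finset.image _ _ (fun _ _ => Classical.propDecidable _)
      (fun i => (S.κ i, b.constr ℤ u (S.m i))) S.I, fun n θ hθ => ?_⟩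
    obtain ⟨χ, h, rfl⟩ := Finset.mem_image.1 hθ
    refine ((hX n χ h).2.2 _ hu').trans (le_of_eq ?_)
    congr 1
    refine Finset.sum_congr rfl fun q _ => ?_
    congr 1
    simp only [hcs n χ h]
    refine Finset.sum_congr ?_ fun _ _ => rfl
    refine Finset.ext fun i : S.ι => ?_
    refine (@Finset.mem_filter _ _ (fun _ => Classical.propDecidable _) _ _).trans
      (Iff.trans ?_ Finset.mem_filter.symm)
    simp only [Sys.ref, Sys.re, Sys.wc, Prod.ext_iff,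
      Module.Basis.constr_apply_fintype, Module.Basis.equivFun_apply, smul_eq_mul, mul_comm]

end Pool.Agent.MP_c1891a_nt.G43
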