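import Pool.Agent.MP_c1891a_nt.G43.Spec

/-
Row Abs, part 1: facts on the asymptotic field, affine changes, transcendence bases.
-/

namespace Pool.Agent.MP_c1891a_nt.G43

open Finset Filter

section

variable {N : ℕ → ℕ} {K : Type} [NormedField K] {M : Subring (ℕ → ℂ)} {cl : M →+* K}

lemma abs_ev (hN : Tendsto N atTop atTop) (B : ℝ) : ∀ᶠ n in hyperfilter ℕ, B ≤ (N n : ℝ) :=
  Nat.hyperfilter_le_atTop ((tendsto_natCast_atTop_atTop.comp hN).eventually_ge_atTop B)

lemma abs_evp (hN : Tendsto N atTop atTop) {t : ℝ} (ht : 0 < t) (B : ℝ) :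
    ∀ᶠ n in hyperfilter ℕ, B ≤ (N n : ℝ) ^ t :=
  Nat.hyperfilter_le_atTop
    (((tendsto_rpow_atTop ht).comp (tendsto_natCast_atTop_atTop.comp hN)).eventually_ge_atTop B)

lemma abs_mem (hU : UF N M cl) {x : ℕ → ℂ} (h : ∀ᶠ n in hyperfilter ℕ, ‖x n‖ ≤ (N n : ℝ)) :
    x ∈ M := (hU.mem x).2 ⟨1, by simpa using h⟩

lemma abs_zero (hU : UF N M cl) (x : M)
    (h : ∀ t : ℝ, ∀ᶠ n in hyperfilter ℕ, ‖x.1 n‖ ≤ (N n : ℝ) ^ t) : cl x = 0 := by
  by_contra hx
  have h0 := norm_pos_iff.2 hx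
  have := hU.le x (Real.log ‖cl x‖ - 1) (h _)
  rw [Real.exp_sub, Real.exp_log h0, le_div_iff₀ (Real.exp_pos 1)] at this
  nlinarith [Real.add_one_lt_exp (one_ne_zero (α := ℝ))]

lemma abs_of_zero (hU : UF N M cl) (x : M) (h : cl x = 0) (t : ℝ) :
    ∀ᶠ n in hyperfilter ℕ, ‖x.1 n‖ ≤ (N n : ℝ) ^ t :=
  hU.lt x t (by rw [h, norm_zero]; exact Real.exp_pos t)

lemma abs_lt_one (hN : Tendsto N atTop atTop) (hU : UF N M cl) (x : M) (h : ‖cl x‖ < 1) :
    ∀ᶠ n in hyperfilter ℕ, ‖x.1 n‖ < 1 := by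
  have h0 := norm_nonneg (cl x)
  have h1 : ‖cl x‖ < Real.exp (Real.log ((‖cl x‖ + 1) / 2)) := by
    rw [Real.exp_log (by positivity)]; linarith
  filter_upwards [hU.lt x _ h1, abs_ev hN 2] with n h2 h3
  exact h2.trans_lt (Real.rpow_lt_one_of_one_lt_of_neg (by linarith)
    (Real.log_neg (by positivity) (by linarith)))

lemma abs_ne_zero (hN : Tendsto N atTop atTop) (hU : UF N M cl) (x : M) (t : ℝ)
    (h : ∀ᶠ n in hyperfilter ℕ, (N n : ℝ) ^ t ≤ ‖x.1 n‖) : cl x ≠ 0 := by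
  intro hx
  obtain ⟨n, h1, h2, h3⟩ := (h.and ((abs_of_zero hU x hx (t - 1)).and (abs_ev hN 2))).exists
  exact absurd (h1.trans h2) (not_le.2 (Real.rpow_lt_rpow_of_exponent_lt (by linarith) (by linarith)))

lemma abs_large_two (hN : Tendsto N atTop atTop) {α : Type} {S : ℕ → Finset α} (h : Large N S) :
    ∀ᶠ n in hyperfilter ℕ, 1 < (S n).card := by
  obtain ⟨ε, hε, h⟩ := h
  filter_upwards [h, abs_evp hN hε 2] with n h1 h2
  have : (2 : ℝ) ≤ (S n).card := h2.trans h1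
  exact_mod_cast this

/-- two sequences of different points -/
lemma abs_two_pts (hN : Tendsto N atTop atTop) (hU : UF N M cl) {d : ℕ}
    {S : ℕ → Finset (Fin d → ℂ)} (h : Large N S) (hb : ∀ n, ∀ θ ∈ S n, ∀ l, ‖θ l‖ ≤ N n) :
    ∃ θ θ' : Fin d → M, ∀ᶠ n in hyperfilter ℕ, (fun l => (θ l).1 n) ∈ S n ∧
      (fun l => (θ' l).1 n) ∈ S n ∧ (fun l => (θ l).1 n) ≠ fun l => (θ' l).1 n := by
  have : ∀ n, ∃ a b : Fin d → ℂ, 1 < (S n).card → a ∈ S n ∧ b ∈ S n ∧ a ≠ b := by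
    intro n
    by_cases h1 : 1 < (S n).card
    · obtain ⟨a, b, h2⟩ := Finset.one_lt_card_iff.1 h1
      exact ⟨a, b, fun _ => h2⟩
    · exact ⟨0, 0, fun h2 => absurd h2 h1⟩
  choose a b hab using this
  have h2 := (abs_large_two hN h).mono fun n hn => hab n hn
  exact ⟨fun l => ⟨fun n => a n l, abs_mem hU (h2.mono fun n hn => hb n _ hn.1 l)⟩,
    fun l => ⟨fun n => b n l, abs_mem hU (h2.mono fun n hn => hb n _ hn.2.1 l)⟩, h2⟩

lemma abs_IP_mono {d : ℕ} {S S' : ℕ → Finset (Fin d → ℂ)} (h : ∀ n, S' n ⊆ S n) :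
    IP cl S' ⊆ IP cl S := by
  rintro y ⟨θ, h1, h2⟩
  exact ⟨θ, h1.mono fun n hn => h n hn, h2⟩

lemma abs_stab_mono {d : ℕ} {S S' : ℕ → Finset (Fin d → ℂ)} (h : ∀ n, S' n ⊆ S n)
    (hS : Stab N cl S) : Stab N cl S' :=
  fun S'' h1 h2 p hp y hy => hS S'' (fun n => (h1 n).trans (h n)) h2 p hp y (abs_IP_mono h hy)

open Classical in
/-- the affine image of a family -/
noncomputable def absAff {d : ℕ} (α : Fin d → M) (R : M) (S : ℕ → Finset (Fin d → ℂ)) (n : ℕ) :
    Finset (Fin d → ℂ) := (S n).image fun θ l => (θ l - (α l).1 n) * R.1 n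

lemma abs_mem_aff {d : ℕ} (α : Fin d → M) {R R' : M} (hR : ∀ n, R.1 n * R'.1 n = 1)
    (S : ℕ → Finset (Fin d → ℂ)) (n : ℕ) (y : Fin d → ℂ) :
    y ∈ absAff α R S n ↔ (fun l => (α l).1 n + R'.1 n * y l) ∈ S n := by
  rw [absAff, Finset.mem_image]
  constructor
  · rintro ⟨θ, h, rfl⟩
    have : (fun l => (α l).1 n + R'.1 n * ((θ l - (α l).1 n) * R.1 n)) = θ := by
      funext l
      linear_combination (θ l - (α l).1 n) * hR n
    rwa [this]
  · intro h
    refine ⟨_, h, funext fun l => ?_⟩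
    linear_combination y l * hR n

lemma abs_card_aff {d : ℕ} (α : Fin d → M) {R R' : M} (hR : ∀ n, R.1 n * R'.1 n = 1)
    (S : ℕ → Finset (Fin d → ℂ)) (n : ℕ) : (absAff α R S n).card = (S n).card := by
  refine Finset.card_image_of_injective _ fun θ θ' h => funext fun l => ?_
  have : (θ l - (α l).1 n) * R.1 n = (θ' l - (α l).1 n) * R.1 n := congrFun h l
  linear_combination this * R'.1 n - (θ l - θ' l) * hR n

lemma abs_IP_aff {d : ℕ} (α : Fin d → M) {R R' : M} (hR : ∀ n, R.1 n * R'.1 n = 1)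
    (S : ℕ → Finset (Fin d → ℂ)) (y : Fin d → K) :
    y ∈ IP cl (absAff α R S) ↔ ∃ z ∈ IP cl S, y = fun l => (z l - cl (α l)) * cl R := by
  have h1 : R * R' = 1 := Subtype.ext (funext hR)
  constructor
  · rintro ⟨η, h2, h3⟩
    refine ⟨fun l => cl (α l + R' * η l), ⟨fun l => α l + R' * η l,
      h2.mono fun n hn => (abs_mem_aff α hR S n _).1 hn, fun _ => rfl⟩, funext fun l => ?_⟩
    rw [← h3, ← map_sub, ← map_mul]
    congr 1
    linear_combination -η l * h1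
  · rintro ⟨z, ⟨θ, h2, h3⟩, rfl⟩
    refine ⟨fun l => (θ l - α l) * R, h2.mono fun n hn => ?_, fun l => by rw [map_mul, map_sub, h3]⟩
    exact Finset.mem_image.2 ⟨_, hn, rfl⟩

lemma abs_stab_aff {d : ℕ} (α : Fin d → M) {R R' : M} (hR : ∀ n, R.1 n * R'.1 n = 1)
    {S : ℕ → Finset (Fin d → ℂ)} (hS : Stab N cl S) : Stab N cl (absAff α R S) := by
  classical
  intro S' h1 h2 p hp y hy
  obtain ⟨z, hz, rfl⟩ := (abs_IP_aff α hR S y).1 hy
  have key : ∀ z : Fin d → K, MvPolynomial.eval z (MvPolynomial.bind₁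
      (fun l => (MvPolynomial.X l - MvPolynomial.C (cl (α l))) * MvPolynomial.C (cl R)) p) =
      MvPolynomial.eval (fun l => (z l - cl (α l)) * cl R) p := by
    intro z
    rw [← MvPolynomial.coe_aeval_eq_eval, ← MvPolynomial.coe_aeval_eq_eval, RingHom.coe_coe,
      RingHom.coe_coe, MvPolynomial.aeval_bind₁]
    simp
  let S'' : ℕ → Finset (Fin d → ℂ) := fun n =>
    (S n).filter fun θ => (fun l => (θ l - (α l).1 n) * R.1 n) ∈ S' n
  have e : absAff α R S'' = S' := by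
    funext n
    ext y
    simp only [absAff, S'', Finset.mem_image, Finset.mem_filter]
    constructor
    · rintro ⟨θ, h, rfl⟩
      exact h.2
    · intro h
      obtain ⟨θ, h3, rfl⟩ := Finset.mem_image.1 (h1 n h)
      exact ⟨θ, ⟨h3, h⟩, rfl⟩
  rw [← key]
  refine hS S'' (fun n => Finset.filter_subset _ _) ?_ _ (fun z hz => ?_) z hz
  · obtain ⟨ε, hε, h⟩ := h2
    refine ⟨ε, hε, h.mono fun n hn => ?_⟩
    rwa [← e, abs_card_aff α hR] at hn
  · rw [key]
    exact hp _ (e ▸ (abs_IP_aff α hR S'' _).2 ⟨z, hz, rfl⟩)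

end

/-- a transcendence basis among the variables -/
lemma abs_basis {K : Type} [Field K] {d : ℕ} (𝔭 : Ideal (MvPolynomial (Fin d) K)) [𝔭.IsPrime] :
    ∃ (k : ℕ) (σ : Fin k → Fin d),
      IsTranscendenceBasis K (fun i => Ideal.Quotient.mk 𝔭 (MvPolynomial.X (σ i))) := by
  have h1 : Algebra.adjoin K (Set.range fun l => Ideal.Quotient.mk 𝔭 (MvPolynomial.X l)) = ⊤ := by
    have := congrArg (Subalgebra.map (Ideal.Quotient.mkₐ K 𝔭))
      (MvPolynomial.adjoin_range_X (R := K) (σ := Fin d))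
    rwa [AlgHom.map_adjoin, Algebra.map_top,
      (AlgHom.range_eq_top _).2 (Ideal.Quotient.mkₐ_surjective K 𝔭), ← Set.range_comp] at this
  have : Algebra.IsAlgebraic
      (Algebra.adjoin K (Set.range fun l => Ideal.Quotient.mk 𝔭 (MvPolynomial.X l)))
      (MvPolynomial (Fin d) K ⧸ 𝔭) := by
    refine ⟨fun x => ?_⟩
    exact isAlgebraic_algebraMap (⟨x, h1 ▸ Algebra.mem_top⟩ :
      Algebra.adjoin K (Set.range fun l => Ideal.Quotient.mk 𝔭 (MvPolynomial.X l)))
  obtain ⟨t, ht, hb⟩ := exists_isTranscendenceBasis_subset (R := K)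
    (Set.range fun l => Ideal.Quotient.mk 𝔭 (MvPolynomial.X l))
  have hf : Finite t := (Set.finite_range _).subset ht
  obtain ⟨k, ⟨e⟩⟩ := Finite.exists_equiv_fin t
  choose σ hσ using fun i : Fin k => ht (e.symm i).2
  exact ⟨k, σ, (isTranscendenceBasis_equiv' e.symm (funext fun i => (hσ i).symm)).2 hb⟩

/-- no equation between independent variables -/
lemma abs_indep {K : Type} [Field K] {d k D : ℕ} (Z : Set (Fin d → K)) (σ : Fin k → Fin d)
    (h : AlgebraicIndependent K fun i =>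
      Ideal.Quotient.mk (MvPolynomial.vanishingIdeal K Z) (MvPolynomial.X (σ i)))
    (q : (Fin k → Fin D) → K) (hq : ∀ y ∈ Z, ∑ a, q a * ∏ i, y (σ i) ^ (a i : ℕ) = 0) : q = 0 := by
  classical
  let f : (Fin k → Fin D) → Fin k →₀ ℕ := fun a => Finsupp.equivFunOnFinite.symm fun i => a i
  have hf : Function.Injective f := fun a b hab => funext fun i =>
    Fin.ext (congrFun (Finsupp.equivFunOnFinite.symm.injective hab) i)
  have h1 := algebraicIndependent_iff.1 h (∑ a, MvPolynomial.monomial (f a) (q a)) (by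
    have e : ∀ p : MvPolynomial (Fin k) K, MvPolynomial.aeval (fun i =>
        Ideal.Quotient.mk (MvPolynomial.vanishingIdeal K Z) (MvPolynomial.X (σ i))) p =
        Ideal.Quotient.mk (MvPolynomial.vanishingIdeal K Z) (MvPolynomial.rename σ p) := by
      intro p
      exact DFunLike.congr_fun (MvPolynomial.algHom_ext (f := MvPolynomial.aeval _)
        (g := (Ideal.Quotient.mkₐ K _).comp (MvPolynomial.rename σ)) (by simp)) p
    rw [e, Ideal.Quotient.eq_zero_iff_mem, MvPolynomial.mem_vanishingIdeal_iff]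
    intro y hy
    rw [MvPolynomial.aeval_rename, map_sum, ← hq y hy]
    refine Finset.sum_congr rfl fun a _ => ?_
    rw [MvPolynomial.aeval_monomial, Finsupp.prod_fintype _ _ (by simp)]
    simp [f])
  funext a
  have h2 := congrArg (MvPolynomial.coeff (f a)) h1
  simpa [MvPolynomial.coeff_sum, MvPolynomial.coeff_monomial, hf.eq_iff] using h2

/-- the case of an empty basis -/
lemma abs_const {K : Type} [Field K] [IsAlgClosed K] {d : ℕ} (Z : Set (Fin d → K))
    [(MvPolynomial.vanishingIdeal K Z).IsPrime] (σ : Fin 0 → Fin d)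
    (h : IsTranscendenceBasis K fun i =>
      Ideal.Quotient.mk (MvPolynomial.vanishingIdeal K Z) (MvPolynomial.X (σ i))) :
    ∀ y ∈ Z, ∀ y' ∈ Z, y = y' := by
  have := h.isEmpty_iff_isAlgebraic.1 inferInstance
  intro y hy y' hy'
  funext l
  obtain ⟨a, ha⟩ := (IsAlgClosed.algebraMap_bijective_of_isIntegral (k := K)).2
    (Ideal.Quotient.mk (MvPolynomial.vanishingIdeal K Z) (MvPolynomial.X l))
  have h1 : MvPolynomial.C a - MvPolynomial.X l ∈ MvPolynomial.vanishingIdeal K Z :=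
    Ideal.Quotient.eq.1 ha
  have h2 := h1 y hy
  have h3 := h1 y' hy'
  simp only [map_sub, MvPolynomial.aeval_C, MvPolynomial.aeval_X, sub_eq_zero] at h2 h3
  rw [← h2, ← h3]

end Pool.Agent.MP_c1891a_nt.G43
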