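import Pool.Agent.MP_c1891a_nt.G36.Abs1

/-
Row Abs, part 2: the determinant argument and the pigeonhole step.
-/

namespace Pool.Agent.MP_c1891a_nt.G43

open Finset Filter

lemma abs_prod_pow {R : Type} [CommMonoid R] {d k : ℕ} (σ : Fin k → Fin d) (a : Fin k → ℕ)
    (y : Fin d → R) :
    ∏ l, y l ^ (∑ i, Finsupp.single (σ i) (a i) : Fin d →₀ ℕ) l = ∏ i, y (σ i) ^ a i := by
  simp only [Finsupp.finsetSum_apply, ← Finset.prod_pow_eq_pow_sum]
  rw [Finset.prod_comm]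
  refine Finset.prod_congr rfl fun i _ => ?_
  rw [Finset.prod_eq_single (σ i)]
  · simp
  · intro l _ hl
    simp [Finsupp.single_eq_of_ne hl]
  · simp

lemma abs_exp_inj {d k D : ℕ} {σ : Fin k → Fin d} (hσ : Function.Injective σ) :
    Function.Injective fun a : Fin k → Fin D =>
      (∑ i, Finsupp.single (σ i) (a i : ℕ) : Fin d →₀ ℕ) := by
  have e : ∀ (a : Fin k → Fin D) j,
      (∑ i, Finsupp.single (σ i) (a i : ℕ) : Fin d →₀ ℕ) (σ j) = a j := by
    intro a j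
    rw [Finsupp.finsetSum_apply, Finset.sum_eq_single j]
    · simp
    · intro l _ hl
      exact Finsupp.single_eq_of_ne fun h => hl (hσ h).symm
    · simp
  intro a b hab
  funext j
  apply Fin.ext
  rw [← e a j, ← e b j]
  exact DFunLike.congr_fun hab (σ j)

/-- a determinant of monomials times a power of the denominator is an integer -/
lemma abs_det_int {k D : ℕ} (y : (Fin k → Fin D) → Fin k → ℂ) (ρ : ℂ)
    (h : ∀ b i, ∃ z : ℤ, y b i * ρ = z) :
    ∃ z : ℤ, ρ ^ (∑ a : Fin k → Fin D, ∑ i, (a i : ℕ)) *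
      (Matrix.of fun a b : Fin k → Fin D => ∏ i, y b i ^ (a i : ℕ)).det = z := by
  choose z hz using h
  refine ⟨(Matrix.of fun a b : Fin k → Fin D => ∏ i, z b i ^ (a i : ℕ)).det, ?_⟩
  rw [← Finset.prod_pow_eq_pow_sum, ← Matrix.det_mul_column, ← eq_intCast (Int.castRingHom ℂ),
    RingHom.map_det]
  congr 1
  ext a b
  simp only [Matrix.of_apply, RingHom.mapMatrix_apply, Matrix.map_apply, map_prod, map_pow,
    eq_intCast, ← hz, mul_pow, Finset.prod_mul_distrib, Finset.prod_pow_eq_pow_sum]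
  ring

lemma abs_sum_le (k D : ℕ) : ∑ a : Fin k → Fin D, ∑ i, (a i : ℕ) ≤ k * D * D ^ k := by
  refine (Finset.sum_le_card_nsmul _ _ (k * D) fun a _ => ?_).trans (le_of_eq ?_)
  · refine (Finset.sum_le_card_nsmul _ _ D fun i _ => (a i).2.le).trans (le_of_eq ?_)
    simp
  · simp [mul_comm]

lemma abs_geo (h3 : SStab) (h5 : SAux) {N : ℕ → ℕ} {K : Type} [NontriviallyNormedField K]
    [IsUltrametricDist K] [IsAlgClosed K] {M : Subring (ℕ → ℂ)} {cl : M →+* K}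
    (hN : Tendsto N atTop atTop) (hU : UF N M cl) {d : ℕ} (S : ℕ → Finset (Fin d → ℂ))
    (hL : Large N S) (hS : Stab N cl S) {g : ℝ} (hg : 0 < g) (hN0 : ∀ n, 0 < N n)
    (hb : ∀ n, ∀ θ ∈ S n, ∀ l, ‖θ l‖ ≤ (N n : ℝ) ^ (-g)) (ρ : M) (hρ : ∀ n, ρ.1 n ≠ 0)
    (hρ' : ∀ n, ‖ρ.1 n‖ ≤ N n) (hint : ∀ n, ∀ θ ∈ S n, ∀ l, ∃ z : ℤ, θ l * ρ.1 n = z)
    (hloc : ∀ (k : ℕ) (σ : Fin k → Fin d), (MvPolynomial.vanishingIdeal K (IP cl S)).IsPrime →
      0 < k → IsTranscendenceBasis K (fun i =>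
        Ideal.Quotient.mk (MvPolynomial.vanishingIdeal K (IP cl S)) (MvPolynomial.X (σ i))) →
      ∃ n e, n < k ∧ Low (IP cl S) n e) : False := by
  have hN1 : ∀ n, (1 : ℝ) ≤ N n := fun n => by exact_mod_cast hN0 n
  have hb' : ∀ n, ∀ θ ∈ S n, ∀ l, ‖θ l‖ ≤ N n := fun n θ hθ l =>
    (hb n θ hθ l).trans ((Real.rpow_le_one_of_one_le_of_nonpos (hN1 n) (by linarith)).trans (hN1 n))
  obtain ⟨-, hp, hdet⟩ := h3 N K M cl d S hN hU hL hb'
  have hp := hp hS
  obtain ⟨k, σ, hσ⟩ := abs_basis (MvPolynomial.vanishingIdeal K (IP cl S))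
  rcases Nat.eq_zero_or_pos k with rfl | hk
  · obtain ⟨θ, θ', hθ⟩ := abs_two_pts hN hU hL hb'
    have e := abs_const _ σ hσ _ ⟨θ, hθ.mono fun n hn => hn.1, fun _ => rfl⟩ _
      ⟨θ', hθ.mono fun n hn => hn.2.1, fun _ => rfl⟩
    have h1 : ∀ l, ∀ᶠ n in hyperfilter ℕ, ‖((θ l - θ' l) * ρ).1 n‖ < 1 := fun l =>
      abs_lt_one hN hU _ (by rw [map_mul, map_sub, congrFun e l]; simp)
    obtain ⟨n, ⟨h2, h4, h6⟩, h7⟩ := (hθ.and (eventually_all.2 h1)).exists
    refine h6 (funext fun l => ?_)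
    obtain ⟨z, hz⟩ := hint n _ h2 l
    obtain ⟨z', hz'⟩ := hint n _ h4 l
    have h8 : ((θ l - θ' l) * ρ).1 n = ((z - z' : ℤ) : ℂ) := by
      rw [Int.cast_sub, ← hz, ← hz', ← sub_mul]
      rfl
    have h9 := h7 l
    rw [h8, Complex.norm_intCast, ← Int.cast_abs, ← Int.cast_one, Int.cast_lt,
      Int.abs_lt_one_iff, sub_eq_zero] at h9
    exact mul_right_cancel₀ (hρ n) (by rw [hz, hz', h9])
  · obtain ⟨n, e, hnk, hlow⟩ := hloc k σ hp hk hσ
    obtain ⟨D, -, hD⟩ := h5 K k n e (Real.exp (-g)) (Real.exp 1) hnk (Real.exp_pos _).le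
      (Real.exp_lt_one_iff.2 (by linarith)) (Real.one_le_exp zero_le_one)
    have hσi : Function.Injective σ := fun i j hij => hσ.1.injective (by simp only [hij])
    obtain ⟨q, hq, hq'⟩ := hdet (Fin k → Fin D) _ (abs_exp_inj hσi) (by
      intro θ hθ
      simp only [abs_prod_pow]
      let δ : M := (Matrix.of fun a b : Fin k → Fin D => ∏ i, θ b (σ i) ^ (a i : ℕ)).det
      have e1 : cl δ = (Matrix.of fun a b : Fin k → Fin D =>
          ∏ i, cl (θ b (σ i)) ^ (a i : ℕ)).det := by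
        rw [RingHom.map_det]
        congr 1
        ext a b
        simp
      have e2 : ∀ n, δ.1 n = (Matrix.of fun a b : Fin k → Fin D =>
          ∏ i, (θ b (σ i)).1 n ^ (a i : ℕ)).det := by
        intro n
        refine (RingHom.map_det ((Pi.evalRingHom (fun _ => ℂ) n).comp M.subtype) _).trans ?_
        congr 1
        ext a b
        simp
      have h1 := hD d σ _ hlow (fun b l => cl (θ b l)) fun b =>
        ⟨⟨θ b, hθ b, fun _ => rfl⟩, fun l => hU.le _ _ ((hθ b).mono fun n hn => hb n _ hn l)⟩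
      have h2 : ‖cl ρ‖ ≤ Real.exp 1 :=
        hU.le _ _ (Eventually.of_forall fun n => by rw [Real.rpow_one]; exact hρ' n)
      have h4 : ‖cl (ρ ^ (∑ a : Fin k → Fin D, ∑ i, (a i : ℕ)) * δ)‖ < 1 := by
        rw [map_mul, map_pow, norm_mul, norm_pow, e1, mul_comm]
        refine lt_of_le_of_lt (mul_le_mul_of_nonneg_left ?_ (norm_nonneg _)) h1
        exact (pow_le_pow_left₀ (norm_nonneg _) h2 _).trans
          (pow_le_pow_right₀ (Real.one_le_exp zero_le_one) (abs_sum_le k D))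
      filter_upwards [abs_lt_one hN hU _ h4, eventually_all.2 hθ] with n h6 h7
      obtain ⟨z, hz⟩ := abs_det_int (fun b i => (θ b (σ i)).1 n) (ρ.1 n)
        fun b i => hint n _ (h7 b) (σ i)
      have h8 : (ρ ^ (∑ a : Fin k → Fin D, ∑ i, (a i : ℕ)) * δ).1 n = (z : ℂ) := by
        rw [← hz, ← e2]
        rfl
      rw [h8, Complex.norm_intCast, ← Int.cast_abs, ← Int.cast_one, Int.cast_lt,
        Int.abs_lt_one_iff] at h6
      rw [h6, Int.cast_zero] at hz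
      exact (mul_eq_zero.1 hz).resolve_left (pow_ne_zero _ (hρ n)))
    simp only [abs_prod_pow] at hq'
    exact hq (abs_indep _ σ hσ.1 q hq')

/-- many points in a small box -/
lemma abs_box {d : ℕ} (S : Finset (Fin d → ℂ)) {B : ℝ} (hB : 1 ≤ B)
    (h : ∀ θ ∈ S, ∀ l, ∃ x : ℝ, 0 ≤ x ∧ x ≤ 1 ∧ θ l = x) :
    ∃ S' ⊆ S, (S.card : ℝ) ≤ (2 * B) ^ d * S'.card ∧
      ∀ θ ∈ S', ∀ θ' ∈ S', ∀ l, ‖θ l - θ' l‖ ≤ B⁻¹ := by
  classical
  have hB0 : 0 < B := by linarith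
  let t := Fintype.piFinset fun _ : Fin d => Finset.range (⌊B⌋₊ + 1)
  have ht : (t.card : ℝ) ≤ (2 * B) ^ d := by
    simp only [t, Fintype.card_piFinset, Finset.card_range, Finset.prod_const, Finset.card_univ,
      Fintype.card_fin, Nat.cast_pow, Nat.cast_add, Nat.cast_one]
    exact pow_le_pow_left₀ (by positivity) (by linarith [Nat.floor_le hB0.le]) d
  obtain ⟨y, -, hy⟩ := Finset.exists_le_card_fiber_of_nsmul_le_card_of_maps_to (s := S) (t := t)
    (f := fun θ l => ⌊(θ l).re * B⌋₊) (b := (S.card : ℝ) / (2 * B) ^ d) (by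
      intro θ hθ
      refine Fintype.mem_piFinset.2 fun l => Finset.mem_range.2 (Nat.lt_succ_of_le ?_)
      obtain ⟨x, -, h1, h2⟩ := h θ hθ l
      rw [h2, Complex.ofReal_re]
      exact Nat.floor_le_floor (by nlinarith))
    ⟨fun _ => 0, Fintype.mem_piFinset.2 fun l => by simp⟩ (by
      rw [nsmul_eq_mul, mul_div_assoc', div_le_iff₀ (by positivity), mul_comm]
      exact mul_le_mul_of_nonneg_left ht (Nat.cast_nonneg _))
  refine ⟨_, Finset.filter_subset _ _, by rwa [div_le_iff₀' (by positivity)] at hy,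
    fun θ hθ θ' hθ' l => ?_⟩
  obtain ⟨h1, h2⟩ := Finset.mem_filter.1 hθ
  obtain ⟨h3, h4⟩ := Finset.mem_filter.1 hθ'
  obtain ⟨x, hx, -, e⟩ := h θ h1 l
  obtain ⟨x', hx', -, e'⟩ := h θ' h3 l
  have h5 : ⌊(θ l).re * B⌋₊ = ⌊(θ' l).re * B⌋₊ := (congrFun h2 l).trans (congrFun h4 l).symm
  rw [e, e', Complex.ofReal_re, Complex.ofReal_re] at h5
  rw [e, e', ← Complex.ofReal_sub, Complex.norm_real, Real.norm_eq_abs, ← one_div,
    le_div_iff₀ hB0, ← abs_of_pos hB0, ← abs_mul, abs_le]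
  have a1 := Nat.floor_le (mul_nonneg hx hB0.le)
  have a2 := Nat.floor_le (mul_nonneg hx' hB0.le)
  have a3 := Nat.lt_floor_add_one (x * B)
  have a4 := Nat.lt_floor_add_one (x' * B)
  rw [h5] at a1 a3
  constructor <;> nlinarith

end Pool.Agent.MP_c1891a_nt.G43
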